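import Mathlib
import Pool.Agent.V11217.Pol.Main

/-!
# MP_aebb62_gt: countable tightness of `P(X)` at Dirac measures and nonseparable measures

For every nonempty compact Hausdorff space `K` there are a compact Hausdorff space `X`, a
continuous surjection `q : K × K → X` and a point `x` of `X` whose preimage is exactly the
diagonal, such that

* if `K` is countably tight then so is `X`;
* if some regular Borel probability measure on `K` has a nonseparable `L¹`, then `P(X)` does not
  have countable tightness at the Dirac measure of `x`.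

So a positive answer to the question implies that `L¹(μ)` is separable for every regular Borel
probability measure `μ` on a countably tight compact space.
-/

open Topology Set MeasureTheory

namespace Pool.Agent.Results.MP_aebb62_gt.NonseparableMeasures

open Pool.Agent.V11217.Pol

universe u

section Space

variable (K : Type u) [TopologicalSpace K] [CompactSpace K] [T2Space K]

/-- the map `(a, b) ↦ (|f a - f b|)_f` -/
def diffs (z : K × K) : C(K, ℝ) → ℝ := fun f => |f z.1 - f z.2|

omit [CompactSpace K] [T2Space K] in
lemma diffs_cont : Continuous (diffs K) := by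
  unfold diffs
  fun_prop

/-- A model of the square of `K` with the diagonal collapsed. -/
def Sq : Type u := Set.range (diffs K)

instance : TopologicalSpace (Sq K) := inferInstanceAs (TopologicalSpace (Set.range (diffs K)))

instance : T2Space (Sq K) := inferInstanceAs (T2Space (Set.range (diffs K)))

instance : CompactSpace (Sq K) := isCompact_iff_compactSpace.1 (isCompact_range (diffs_cont K))

instance : MeasurableSpace (Sq K) := borel _

instance : BorelSpace (Sq K) := ⟨rfl⟩

/-- the quotient map -/
def quo : C(K × K, Sq K) := ⟨fun z => ⟨diffs K z, z, rfl⟩, (diffs_cont K).subtype_mk _⟩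

lemma quo_surj : Function.Surjective (quo K) := by
  rintro ⟨_, z, rfl⟩
  exact ⟨z, rfl⟩

/-- the coordinates -/
def coord (f : C(K, ℝ)) : C(Sq K, ℝ) :=
  ⟨fun y => y.1 f, (continuous_apply f).comp continuous_subtype_val⟩

lemma quo_diag (k a b : K) : quo K (a, b) = quo K (k, k) ↔ a = b := by
  constructor
  · intro h
    by_contra hab
    obtain ⟨f, hf0, hf1, -⟩ := exists_continuous_zero_one_of_isClosed (isClosed_singleton (x := a))
      (isClosed_singleton (x := b)) (by simpa using hab)
    have h2 := congrArg (fun y : Sq K => y.1 f) h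
    have h3 : |f a - f b| = |f k - f k| := h2
    rw [hf0 rfl, hf1 rfl] at h3
    simp at h3
  · rintro rfl
    apply Subtype.ext
    funext f
    show |f a - f a| = |f k - f k|
    simp

lemma quo_nhds (k : K) (W : Set (Sq K)) (hW : W ∈ 𝓝 (quo K (k, k))) :
    ∃ (F : Finset C(K, ℝ)) (δ : ℝ), 0 < δ ∧
      ∀ p q, (∀ f ∈ F, |f p - f q| ≤ δ) → quo K (p, q) ∈ W := by
  classical
  obtain ⟨U, hU, hUW⟩ := (mem_nhds_subtype (Set.range (diffs K)) _ W).1 hW
  rw [mem_nhds_iff] at hU
  obtain ⟨V, hVU, hVo, hV⟩ := hU
  obtain ⟨F, u, hu, huV⟩ := isOpen_pi_iff.1 hVo _ hV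
  have h0 : ∀ f, (quo K (k, k)).1 f = 0 := fun f => by
    show |f k - f k| = 0
    simp
  have hd : ∀ f ∈ F, ∃ δ : ℝ, 0 < δ ∧ ∀ t : ℝ, |t| ≤ δ → t ∈ u f := by
    intro f hf
    have h1 := (hu f hf).1.mem_nhds (hu f hf).2
    have h2 : (quo K (k, k)).1 f = 0 := h0 f
    have h1' : u f ∈ 𝓝 (0 : ℝ) := by
      rw [← h2]
      exact h1
    obtain ⟨δ, hδ, hsub⟩ := Metric.mem_nhds_iff.1 h1'
    exact ⟨δ / 2, by positivity, fun t ht => hsub (by
      rw [Metric.mem_ball, dist_zero_right, Real.norm_eq_abs]; linarith)⟩
  choose! δ hδ1 hδ2 using hd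
  by_cases hne : F.Nonempty
  · refine ⟨F, F.inf' hne δ, ?_, fun p q hpq => hUW (hVU (huV ?_))⟩
    · rw [Finset.lt_inf'_iff]
      exact hδ1
    · intro f hf
      apply hδ2 f hf
      show |(|f p - f q|)| ≤ δ f
      rw [abs_abs]
      exact (hpq f hf).trans (Finset.inf'_le _ hf)
  · rw [Finset.not_nonempty_iff_eq_empty] at hne
    subst hne
    exact ⟨∅, 1, one_pos, fun p q _ => hUW (hVU (huV (by simp)))⟩

end Space

/-- **Result.**
(1) For every nonempty compact Hausdorff `K` there are a compact Hausdorff `X`, a continuous
surjection `q : K × K → X` and a point `x : X` with `q (a, b) = x` exactly for `a = b`, such that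
`X` is countably tight if `K` is, and such that, if some regular Borel probability measure on `K`
has a nonseparable `L¹`, then there is a set `A` of regular Borel probability measures on `X` with
`δ_x` in the closure of `A` but not in the closure of any countable subset of `A`.
(2) If `P(X)` has countable tightness at every Dirac measure for every countably tight compact
Hausdorff `X`, then every regular Borel probability measure on a countably tight compact Hausdorff
space has a separable `L¹`. -/
theorem result :
    (∀ (K : Type u) [TopologicalSpace K] [CompactSpace K] [T2Space K] [Nonempty K]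
      [MeasurableSpace K] [BorelSpace K],
      ∃ (X : Type u) (_ : TopologicalSpace X) (_ : CompactSpace X) (_ : T2Space X)
        (_ : MeasurableSpace X) (_ : BorelSpace X) (q : K × K → X) (x : X),
        Continuous q ∧ Function.Surjective q ∧ (∀ a b, q (a, b) = x ↔ a = b) ∧
        ((∀ (S : Set K) (y : K), y ∈ closure S → ∃ T ⊆ S, T.Countable ∧ y ∈ closure T) →
          ∀ (S : Set X) (y : X), y ∈ closure S → ∃ T ⊆ S, T.Countable ∧ y ∈ closure T) ∧
        ((∃ (μ : Measure K), IsProbabilityMeasure μ ∧ μ.Regular ∧
            ¬ TopologicalSpace.SeparableSpace (Lp ℝ 1 μ)) →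
          ∃ A : Set (ProbabilityMeasure X), (∀ ν ∈ A, (ν : Measure X).Regular) ∧
            (⟨Measure.dirac x, inferInstance⟩ : ProbabilityMeasure X) ∈ closure A ∧
            ∀ B ⊆ A, B.Countable →
              (⟨Measure.dirac x, inferInstance⟩ : ProbabilityMeasure X) ∉ closure B)) ∧
    ((∀ (X : Type u) [TopologicalSpace X] [CompactSpace X] [T2Space X]
        [MeasurableSpace X] [BorelSpace X],
        (∀ (S : Set X) (y : X), y ∈ closure S → ∃ T ⊆ S, T.Countable ∧ y ∈ closure T) →
        ∀ (x : X) (A : Set (ProbabilityMeasure X)), (∀ ν ∈ A, (ν : Measure X).Regular) →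
          (⟨Measure.dirac x, inferInstance⟩ : ProbabilityMeasure X) ∈ closure A →
          ∃ B ⊆ A, B.Countable ∧
            (⟨Measure.dirac x, inferInstance⟩ : ProbabilityMeasure X) ∈ closure B) →
      ∀ (K : Type u) [TopologicalSpace K] [CompactSpace K] [T2Space K]
        [MeasurableSpace K] [BorelSpace K],
        (∀ (S : Set K) (y : K), y ∈ closure S → ∃ T ⊆ S, T.Countable ∧ y ∈ closure T) →
        ∀ (μ : Measure K), IsProbabilityMeasure μ → μ.Regular →
          TopologicalSpace.SeparableSpace (Lp ℝ 1 μ)) := by
  have main : ∀ (K : Type u) [TopologicalSpace K] [CompactSpace K] [T2Space K] [Nonempty K]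
      [MeasurableSpace K] [BorelSpace K] (k : K),
      TightAtDirac (Sq K) (quo K (k, k)) → ∀ (μ : Measure K) [IsProbabilityMeasure μ]
        [μ.Regular], TopologicalSpace.SeparableSpace (Lp ℝ 1 μ) := by
    intro K _ _ _ _ _ _ k hT μ _ _
    have h1 : IsSeparable μ := separable_of_tight (quo K) (quo K (k, k)) (coord K)
      (fun f p q => rfl) (fun f => by show |f k - f k| = 0; simp) (quo_nhds K k) hT μ
    have h2 : Fact ((1 : ENNReal) ≠ ⊤) := ⟨ENNReal.one_ne_top⟩
    have h3 : SecondCountableTopology (Lp ℝ 1 μ) := inferInstance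
    infer_instance
  have tight : ∀ (K : Type u) [TopologicalSpace K] [CompactSpace K] [T2Space K],
      CtTight K → CtTight (Sq K) := by
    intro K _ _ _ h
    exact (h.prod h).image (quo K) (quo K).continuous (quo_surj K)
  constructor
  · intro K _ _ _ _ _ _
    obtain ⟨k⟩ := (inferInstance : Nonempty K)
    have hKne : Nonempty K := ⟨k⟩
    refine ⟨Sq K, inferInstance, inferInstance, inferInstance, inferInstance, inferInstance,
      quo K, quo K (k, k), (quo K).continuous, quo_surj K, quo_diag K k, tight K, ?_⟩
    rintro ⟨μ, hμ1, hμ2, hμ3⟩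
    by_contra hcon
    apply hμ3
    refine main K k ?_ μ
    intro A hA hδ
    by_contra h2
    apply hcon
    refine ⟨A, hA, hδ, fun B hB hBc hBcl => h2 ⟨B, hB, hBc, hBcl⟩⟩
  · intro hQ K _ _ _ _ _ hK μ hμ1 hμ2
    obtain ⟨k⟩ : Nonempty K := by
      by_contra hne
      rw [not_nonempty_iff] at hne
      have := hμ1.measure_univ
      rw [univ_eq_empty_iff.2 hne, measure_empty] at this
      exact zero_ne_one this
    have hKne : Nonempty K := ⟨k⟩
    exact main K k (fun A hA hδ => hQ (Sq K) (tight K hK) _ A hA hδ) μ

end Pool.Agent.Results.MP_aebb62_gt.NonseparableMeasures
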